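import Pool.Agent.S11804

set_option autoImplicit false

namespace Pool.Agent.Results.MP_da9eaf_co.Quadratic

open Pool.Agent.S11804

theorem result (n : ℕ) : ∃ (E : Finset (Finset (Fin n))) (f : Fin n → (Fin 2 → ℝ)),
    (∀ e ∈ E, e.card = 3) ∧ Function.Injective f ∧
    ConvexIndependent ℝ (fun e : ↥E => (1 / 3 : ℝ) • ∑ v ∈ e.1, f v) ∧ (n / 4) ^ 2 ≤ E.card := by
  classical
  rcases Nat.eq_zero_or_pos (n / 4) with h0 | hm
  · refine ⟨∅, fun v => ![(v:ℝ), 0], by simp, fun v w h => ?_, ?_, by simp [h0]⟩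
    · have := congrFun h 0
      simp only [Matrix.cons_val_zero] at this
      exact Fin.ext (by exact_mod_cast this)
    · intro s x
      exact absurd x.2 (Finset.notMem_empty _)
  obtain ⟨m, hmn⟩ : ∃ m, m = n / 4 := ⟨_, rfl⟩
  rw [← hmn] at hm ⊢
  have hle : 4 * m ≤ n := by omega
  let g : Fin m × Fin m → Finset (Fin n) := fun z => (edge m z).map (Fin.castLEEmb hle)
  have hs : ∀ z, (1 / 3 : ℝ) • ∑ v ∈ g z, (3:ℝ) • pt m v = ∑ v ∈ edge m z, pt m v := by
    intro z
    rw [← Finset.smul_sum, smul_smul, Finset.sum_map]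
    simp
  have hinj : Function.Injective g := fun z z' hz => edge_key m z z' (by rw [← hs, ← hs, hz])
  refine ⟨Finset.univ.image g, fun v => (3:ℝ) • pt m v, fun e he => ?_, fun v w hvw => ?_,
    parab _ (fun e => ?_) (fun e e' he => ?_), ?_⟩
  · obtain ⟨z, _, rfl⟩ := Finset.mem_image.1 he
    rw [Finset.card_map]
    exact edge_card m z
  · exact Fin.ext (pt_inj hm (smul_right_injective _ (by norm_num : (3:ℝ) ≠ 0) hvw))
  · obtain ⟨z, _, hz⟩ := Finset.mem_image.1 e.2
    rw [← hz, hs, edge_sum]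
    simp
  · obtain ⟨z, _, hz⟩ := Finset.mem_image.1 e.2
    obtain ⟨z', _, hz'⟩ := Finset.mem_image.1 e'.2
    rw [← hz, ← hz', hs, hs] at he
    exact Subtype.ext (by rw [← hz, ← hz', edge_key m z z' he])
  · rw [Finset.card_image_of_injective _ hinj]
    simp [sq]

end Pool.Agent.Results.MP_da9eaf_co.Quadratic
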